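import Pool.Agent.Helper15.AF.Goals4
import Pool.Agent.Helper32.CG.CGL

/-! Project AF (MP_34c247_lc), packet CLM: from certified sets to lists and forms. -/

namespace Pool.Agent.Helper17.AF

open Pool.Agent.Helper15.AF Pool.Agent.Helper78.DT Pool.Agent.Helper78.CG
open Pool.Agent.Helper32.CG (fl mem_fl ev_fl ev_fl_filter)
open scoped Classical

/-- the set is given by `C0` equations -/
def Kept {n : ℕ} (C0 : ℕ) (B : Set (Fin n → Bool)) : Prop :=
  ∃ (a : Fin C0 → Fin n → ZMod 2) (c : Fin C0 → ZMod 2), ∀ x, x ∈ B ↔ ∀ i, dot (a i) x = c i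

theorem clm (hAFS : AfsStmt) : ClmStmt := by
  intro n w r C0 A hA
  obtain ⟨B, hB, hAB⟩ := hA
  have hch : ∀ j, ∃ (a : Fin C0 → Fin n → ZMod 2) (c : Fin C0 → ZMod 2),
      Kept C0 (B j) → ∀ x, x ∈ B j ↔ ∀ i, dot (a i) x = c i := by
    intro j
    by_cases h : Kept C0 (B j)
    · obtain ⟨a, c, hac⟩ := h
      exact ⟨a, c, fun _ => hac⟩
    · exact ⟨0, 0, fun h' => absurd h' h⟩
  choose aa cc hac using hch
  set H : (Fin r → Bool) → (Fin (r * C0) → ZMod 2) → Bool := fun v p =>
    decide (∀ y', (∀ j, Witnessed w (B j) → v j = true → y' ∈ B j) →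
      (∀ j, Kept C0 (B j) → (∀ i, p (finProdFinEquiv (j, i)) = cc j i) → y' ∈ B j) → y' ∈ A)
    with hH
  refine ⟨fun j => fl w (B j), fun i => aa (finProdFinEquiv.symm i).1 (finProdFinEquiv.symm i).2,
    H, ?_, ?_, ?_⟩
  · intro j e he
    rw [mem_fl] at he
    exact he.1.1
  · intro p x hx
    simp only [hH, decide_eq_true_iff] at hx
    apply hx x
    · intro j _ hj
      exact ev_fl_filter w (B j) p x hj
    · intro j hk hj
      rw [hac j hk x]
      intro i
      have := hj i
      simpa using this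
  · have h1 : prob A = pr (fun x : Fin n → Bool => x ∈ A) := by
      rw [pr_eq_card, prob]
      simp
    rw [h1]
    have h2 : ∀ x : Fin n → Bool, x ∈ A →
        (H (fun j => ev (fl w (B j)) x) (fun i => dot (aa (finProdFinEquiv.symm i).1
          (finProdFinEquiv.symm i).2) x) = true) ∨
        ∃ j ∈ (Finset.univ.filter fun j => ¬ Witnessed w (B j) ∧ ¬ Kept C0 (B j)), x ∈ B j := by
      intro x hx
      by_cases hbad : ∃ j ∈ (Finset.univ.filter fun j =>
          ¬ Witnessed w (B j) ∧ ¬ Kept C0 (B j)), x ∈ B j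
      · exact Or.inr hbad
      · left
        simp only [hH, decide_eq_true_iff]
        intro y' h3 h4
        apply hAB x hx y'
        intro j hj
        by_cases hw : Witnessed w (B j)
        · exact h3 j hw (ev_fl w (B j) hw x hj)
        · by_cases hk : Kept C0 (B j)
          · apply h4 j hk
            intro i
            have h5 := (hac j hk x).1 hj i
            simpa using h5
          · exact absurd ⟨j, by simp [hw, hk], hj⟩ hbad
    refine (pr_le_add_of_imp h2).trans ?_
    gcongr
    refine (pr_exists_le _ _).trans ?_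
    have h6 : ∀ j ∈ (Finset.univ.filter fun j => ¬ Witnessed w (B j) ∧ ¬ Kept C0 (B j)),
        pr (fun x : Fin n → Bool => x ∈ B j) ≤ 1 / 2 ^ C0 := by
      intro j hj
      rw [Finset.mem_filter] at hj
      have h7 : Affine (B j) := (hB j).resolve_left hj.2.1
      have h8 := (hAFS n C0 (B j) h7).resolve_right hj.2.2
      have h9 : prob (B j) = pr (fun x : Fin n → Bool => x ∈ B j) := by
        rw [pr_eq_card, prob]
        simp
      rw [← h9]
      exact h8.le
    refine (Finset.sum_le_card_nsmul _ _ _ h6).trans ?_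
    rw [nsmul_eq_mul, mul_one_div]
    gcongr
    calc (Finset.univ.filter fun j => ¬ Witnessed w (B j) ∧ ¬ Kept C0 (B j)).card
        ≤ (Finset.univ : Finset (Fin r)).card := Finset.card_filter_le _ _
      _ = r := by simp

end Pool.Agent.Helper17.AF
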