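import Pool.Agent.Helper15.AF.Goals3
import Pool.Agent.Helper78.JT.Final

/-! Project AF (MP_34c247_lc), packet PM3: the error for the pool. -/

set_option autoImplicit false

namespace Pool.Agent.Helper17.AF

open Pool.Agent.Helper15.AF Pool.Agent.Helper78.DT Pool.Agent.Helper78.JT

theorem cube_le4 (t : ℕ) (ht : 3 ≤ t) : (t + 1) ^ 3 ≤ 4 ^ t := by
  induction t, ht using Nat.le_induction with
  | base => norm_num
  | succ t ht ih =>
    calc (t + 1 + 1) ^ 3 ≤ 4 * (t + 1) ^ 3 := by nlinarith [Nat.zero_le (t ^ 3), Nat.zero_le (t ^ 2)]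
      _ ≤ 4 * 4 ^ t := Nat.mul_le_mul_left 4 ih
      _ = 4 ^ (t + 1) := by ring

/-- the comparison of the exponents -/
theorem pm3_exp (B e t : ℕ) (ht : 2 * B + e + 20 ≤ t) :
    5 * (B * (t + 1)) + e + 14 + (B * (t + 1) + 3) * t ≤ 2 ^ (2 * t) := by
  have h4 : (2 : ℕ) ^ (2 * t) = 4 ^ t := by
    rw [pow_mul]
    norm_num
  rw [h4]
  have h1 : 5 * (B * (t + 1)) + (B * (t + 1)) * t ≤ 2 * B * (t + 1) ^ 2 := by
    have : 5 * (B * (t + 1)) + (B * (t + 1)) * t = B * (t + 1) * (t + 5) := by ring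
    rw [this]
    calc B * (t + 1) * (t + 5) ≤ B * (t + 1) * (2 * (t + 1)) := Nat.mul_le_mul_left _ (by omega)
      _ = 2 * B * (t + 1) ^ 2 := by ring
  calc 5 * (B * (t + 1)) + e + 14 + (B * (t + 1) + 3) * t
      = (5 * (B * (t + 1)) + (B * (t + 1)) * t) + (e + 14 + 3 * t) := by ring
    _ ≤ 2 * B * (t + 1) ^ 2 + (e + 20) * (t + 1) ^ 2 := by
        apply Nat.add_le_add h1
        nlinarith [Nat.zero_le (e * t), Nat.zero_le t, Nat.zero_le (e * t ^ 2)]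
    _ = (2 * B + e + 20) * (t + 1) ^ 2 := by ring
    _ ≤ (t + 1) * (t + 1) ^ 2 := Nat.mul_le_mul_right _ (by omega)
    _ = (t + 1) ^ 3 := by ring
    _ ≤ 4 ^ t := cube_le4 t (by omega)

/-- the estimate in the natural numbers -/
theorem pm3_nat (c C e b L P t n D k K ρ kV J : ℕ) (hC : C = 2 * c + 10) (hL1 : 1 ≤ L)
    (hL : L < 2 ^ (b * (t + 1)))
    (hP : P ≤ 2 * L ^ (C + 8)) (ht : 2 * ((C + 8) * b) + e + 20 ≤ t) (hn : n ≤ D) (hD : 1 ≤ D)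
    (hk : D * 2 ^ (2 * t) ≤ k) (hK : K ≤ L ^ 2) (hρ : ρ ≤ D) (hkV : kV = 2 * L ^ (c + 6))
    (hJ : J = L ^ (c + 3)) :
    K * (4 * ((e + 1) * (P * ((2 * (2 * P + 1) ^ t + 1) ^ n * (2 ^ ρ * ((kV + 1) ^ D * J)))))) *
      (64 * L ^ c) ≤ 2 ^ k := by
  obtain ⟨B, hB⟩ : ∃ B, B = (C + 8) * b := ⟨_, rfl⟩
  rw [← hB] at ht
  have h1 : L ^ (C + 8) ≤ 2 ^ (B * (t + 1)) := by
    calc L ^ (C + 8) ≤ (2 ^ (b * (t + 1))) ^ (C + 8) := Nat.pow_le_pow_left hL.le _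
      _ = 2 ^ (B * (t + 1)) := by
        rw [← pow_mul, hB]
        congr 1
        ring
  have hle : ∀ x, x ≤ C + 8 → L ^ x ≤ 2 ^ (B * (t + 1)) := fun x hx =>
    (Nat.pow_le_pow_right hL1 hx).trans h1
  have hX1 : 1 ≤ 2 ^ (B * (t + 1)) := Nat.one_le_two_pow
  have h2 : 2 * P + 1 ≤ 2 ^ (B * (t + 1) + 3) := by
    rw [pow_add]
    omega
  have hP2 : P ≤ 2 ^ (B * (t + 1) + 1) := by
    rw [pow_add]
    omega
  have h3 : 2 * (2 * P + 1) ^ t + 1 ≤ 2 ^ ((B * (t + 1) + 3) * t + 2) := by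
    have h4 : (2 * P + 1) ^ t ≤ 2 ^ ((B * (t + 1) + 3) * t) := by
      rw [pow_mul]
      exact Nat.pow_le_pow_left h2 t
    have h5 : 1 ≤ 2 ^ ((B * (t + 1) + 3) * t) := Nat.one_le_two_pow
    rw [pow_add]
    omega
  have h4 : (2 * (2 * P + 1) ^ t + 1) ^ n ≤ 2 ^ (((B * (t + 1) + 3) * t + 2) * D) := by
    calc (2 * (2 * P + 1) ^ t + 1) ^ n ≤ (2 * (2 * P + 1) ^ t + 1) ^ D :=
          Nat.pow_le_pow_right (by omega) hn
      _ ≤ (2 ^ ((B * (t + 1) + 3) * t + 2)) ^ D := Nat.pow_le_pow_left h3 D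
      _ = 2 ^ (((B * (t + 1) + 3) * t + 2) * D) := by rw [← pow_mul]
  have hkV2 : (kV + 1) ^ D ≤ 2 ^ ((B * (t + 1) + 2) * D) := by
    rw [pow_mul]
    apply Nat.pow_le_pow_left
    have := hle (c + 6) (by omega)
    rw [pow_add, hkV]
    omega
  have hJ2 : J ≤ 2 ^ (B * (t + 1)) := by
    rw [hJ]
    exact hle _ (by omega)
  have hK2 : K ≤ 2 ^ (B * (t + 1)) := hK.trans (hle _ (by omega))
  have hLc : L ^ c ≤ 2 ^ (B * (t + 1)) := hle _ (by omega)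
  have hρ2 : 2 ^ ρ ≤ 2 ^ D := Nat.pow_le_pow_right (by norm_num) hρ
  have he : e + 1 ≤ 2 ^ e := Nat.lt_two_pow_self
  have h5 : K * (4 * ((e + 1) * (P * ((2 * (2 * P + 1) ^ t + 1) ^ n *
      (2 ^ ρ * ((kV + 1) ^ D * J)))))) * (64 * L ^ c) ≤
      2 ^ (B * (t + 1)) * (2 ^ 2 * (2 ^ e * (2 ^ (B * (t + 1) + 1) *
        (2 ^ (((B * (t + 1) + 3) * t + 2) * D) * (2 ^ D * (2 ^ ((B * (t + 1) + 2) * D) *
          2 ^ (B * (t + 1)))))))) * (2 ^ 6 * 2 ^ (B * (t + 1))) := by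
    refine Nat.mul_le_mul (Nat.mul_le_mul hK2 (Nat.mul_le_mul (by norm_num) (Nat.mul_le_mul he
      (Nat.mul_le_mul hP2 (Nat.mul_le_mul h4 (Nat.mul_le_mul hρ2 (Nat.mul_le_mul hkV2 hJ2)))))))
      (Nat.mul_le_mul (by norm_num) hLc)
  refine h5.trans ?_
  simp only [← pow_add]
  apply Nat.pow_le_pow_right (by norm_num)
  refine le_trans ?_ hk
  have h6 := pm3_exp B e t ht
  calc B * (t + 1) + (2 + (e + (B * (t + 1) + 1 +
        (((B * (t + 1) + 3) * t + 2) * D + (D + ((B * (t + 1) + 2) * D + B * (t + 1))))))) +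
          (6 + B * (t + 1))
      = ((B * (t + 1) + 3) * t + 2 + 1 + (B * (t + 1) + 2)) * D +
        (4 * (B * (t + 1)) + e + 9) * 1 := by ring
    _ ≤ ((B * (t + 1) + 3) * t + 2 + 1 + (B * (t + 1) + 2)) * D +
        (4 * (B * (t + 1)) + e + 9) * D := Nat.add_le_add_left (Nat.mul_le_mul_left _ hD) _
    _ = D * (5 * (B * (t + 1)) + e + 14 + (B * (t + 1) + 3) * t) := by ring
    _ ≤ D * 2 ^ (2 * t) := Nat.mul_le_mul_left D h6

theorem pm3 (hPm1 : Pm1Stmt) : Pm3Stmt := by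
  intro c a e β ha
  have hT : TljStmt := Pool.Agent.Helper3.JT.tlj
  obtain ⟨hT1, hT2, hT3⟩ := hT a e
  obtain ⟨L0, hL0⟩ := hT2 (2 * ((cM c + 8) * bb a e) + e + 20)
  obtain ⟨L1, hL1⟩ := hT3
  obtain ⟨L2, hL2⟩ := hPm1 c a e ha
  obtain ⟨L3, hL3⟩ := pj4S (cM c) a e β
  refine ⟨L0 + L1 + L2 + L3 + 1, fun L hL r hr => ?_⟩
  have hLone : 1 ≤ L := by omega
  have ht := hL0 L (by omega)
  have hk := (hL1 L (by omega)).1
  have hρ := (hL2 L (by omega) r hr).1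
  have hK := (hL3 L (by omega)).2.1
  obtain ⟨_, hLt, _, hr'⟩ := hT1 L hLone
  have hrD := (hr' r hr).2
  have hP : Pj (cM c) L ≤ 2 * L ^ (cM c + 8) :=
    (Pool.Agent.Helper8.DT.npr (L ^ (cM c + 8)) (by positivity)).2.2
  have hn : sj a e L * r ≤ Dj a e L := by
    refine le_trans ?_ hrD
    calc sj a e L * r = r * (1 * sj a e L) := by ring
      _ ≤ r * (tj a e L * sj a e L) :=
        Nat.mul_le_mul_left r (Nat.mul_le_mul_right _ (by omega))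
  have hD : 1 ≤ Dj a e L := Nat.one_le_two_pow
  have key := pm3_nat c (cM c) e (bb a e) L (Pj (cM c) L) (tj a e L) (sj a e L * r) (Dj a e L)
    (Uj a e L ^ (e + 1)) (Kj (cM c) a β e L) (r * C0j c L) (kVj c L) (Jj c L) rfl hLone hLt hP ht
    hn hD hk hK hρ rfl rfl
  have key' : (Kj (cM c) a β e L : ℝ) * (4 * (((e : ℝ) + 1) * ((Pj (cM c) L : ℝ) *
      ((2 * (2 * (Pj (cM c) L : ℝ) + 1) ^ tj a e L + 1) ^ (sj a e L * r) *
        (2 ^ (r * C0j c L) * (((kVj c L : ℝ) + 1) ^ Dj a e L * (Jj c L : ℝ))))))) *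
      (64 * (L : ℝ) ^ c) ≤ 2 ^ (Uj a e L ^ (e + 1)) := by exact_mod_cast key
  have hLr : (0 : ℝ) < (L : ℝ) := by exact_mod_cast hLone
  unfold εj errI
  have h2 : (0 : ℝ) < 2 ^ (Uj a e L ^ (e + 1)) := by positivity
  rw [show ∀ X Y Z : ℝ, X * (4 * (Y * (Z * (1 / 2 ^ (Uj a e L ^ (e + 1)))))) =
      (X * (4 * (Y * Z))) / 2 ^ (Uj a e L ^ (e + 1)) from fun X Y Z => by ring,
    div_le_div_iff₀ h2 (by positivity), one_mul]
  exact key'

end Pool.Agent.Helper17.AF
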